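import Pool.Agent.W870.PD.Stmts
import Pool.Agent.H592F.OrientProb

/-!
# Good coarse sites percolate
-/

set_option autoImplicit false
set_option linter.all false
set_option linter.deprecated false

open MeasureTheory Set Pool.Agent.H978R2 Pool.Agent.W804.HP
open Pool.Agent.H592F (P2 far near bad dep bad_congr safe Wet Reg mem_Reg card_Reg perc_det
  not_far_iff qq)
open scoped ENNReal

namespace Pool.Agent.W90.PD

open Pool.Agent.W870.PD

noncomputable section

/-! ### multiscale renormalisation -/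

theorem dep_near' (k : ℕ) : ∀ (s t x y : P2), near x y → x ∈ dep k s → y ∈ dep k t → ¬ far s t := by
  induction k with
  | zero =>
    intro s t x y hxy hs ht
    simp only [Pool.Agent.H592F.dep, Finset.mem_singleton] at hs ht
    subst hs
    subst ht
    exact not_far_iff.mpr hxy
  | succ k ih =>
    intro s t x y hxy hs ht
    simp only [Pool.Agent.H592F.dep, Finset.mem_biUnion] at hs ht
    obtain ⟨s', hs', hxs⟩ := hs
    obtain ⟨t', ht', hxt⟩ := ht
    have h := ih s' t' x y hxy hxs hxt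
    rw [mem_Reg] at hs' ht'
    unfold Pool.Agent.H592F.far at h ⊢
    push Not at h ⊢
    obtain ⟨h1, h2⟩ := h
    rw [abs_le] at h1 h2
    unfold Pool.Agent.H592F.ph at hs' ht'
    simp only at hs' ht'
    rw [abs_le, abs_le]
    refine ⟨⟨?_, ?_⟩, ⟨?_, ?_⟩⟩ <;> omega

/-- the coordinates on which badness at level `k` depends -/
def DD {ι : Type} [DecidableEq ι] (D : P2 → Finset ι) (k : ℕ) (v : P2) : Finset ι :=
  (dep k v).biUnion D

theorem bad_dep {ι : Type} [DecidableEq ι] (B : P2 → Set (ι → Bool)) (D : P2 → Finset ι)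
    (hB : ∀ v, DepOn (D v : Set ι) (B v)) (k : ℕ) (v : P2) :
    DepOn (DD D k v : Set ι) {ω | bad (fun v => ω ∈ B v) k v} := by
  intro ω ω' h
  refine bad_congr _ _ k v fun x hx => hB x ω ω' fun c hc => h c ?_
  unfold DD
  rw [Finset.coe_biUnion]
  exact Set.mem_biUnion (Finset.mem_coe.mpr hx) hc

theorem DD_disj {ι : Type} [DecidableEq ι] (D : P2 → Finset ι)
    (hD : ∀ s t, far s t → Disjoint (D s) (D t)) (k : ℕ) (s t : P2) (h : far s t) :
    Disjoint (DD D k s) (DD D k t) := by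
  unfold DD
  rw [Finset.disjoint_biUnion_left]
  intro x hx
  rw [Finset.disjoint_biUnion_right]
  intro y hy
  apply hD
  by_contra hf
  exact dep_near' k s t x y (not_far_iff.mp hf) hx hy h

theorem bad_prob' {ι : Type} [DecidableEq ι] (p : NNReal) (hp : p ≤ 1)
    (B : P2 → Set (ι → Bool)) (D : P2 → Finset ι)
    (hB : ∀ v, DepOn (D v : Set ι) (B v))
    (hD : ∀ s t, far s t → Disjoint (D s) (D t))
    (h0 : ∀ v, bm ι p hp (B v) ≤ ENNReal.ofReal (1 / 884101250)) (k : ℕ) (v : P2) :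
    bm ι p hp {ω | bad (fun v => ω ∈ B v) k v} ≤ ENNReal.ofReal (qq k) := by
  induction k generalizing v with
  | zero =>
    refine (h0 v).trans (ENNReal.ofReal_le_ofReal ?_)
    unfold Pool.Agent.H592F.qq
    norm_num
  | succ k ih =>
    have hsub : {ω | bad (fun v => ω ∈ B v) (k + 1) v} ⊆ ⋃ s ∈ Reg v, ⋃ t ∈ Reg v,
        {ω | far s t ∧ bad (fun v => ω ∈ B v) k s ∧ bad (fun v => ω ∈ B v) k t} := by
      rintro ω ⟨s, hs, t, ht, hf, h1, h2⟩
      rw [Set.mem_iUnion₂]
      refine ⟨s, hs, ?_⟩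
      rw [Set.mem_iUnion₂]
      exact ⟨t, ht, hf, h1, h2⟩
    refine (measure_mono hsub).trans ((measure_biUnion_finset_le _ _).trans ?_)
    have hq0 : 0 ≤ qq k := by unfold Pool.Agent.H592F.qq; positivity
    have hin : ∀ s ∈ Reg v, bm ι p hp (⋃ t ∈ Reg v,
        {ω | far s t ∧ bad (fun v => ω ∈ B v) k s ∧ bad (fun v => ω ∈ B v) k t})
          ≤ ENNReal.ofReal (21025 * (qq k * qq k)) := by
      intro s _
      refine (measure_biUnion_finset_le _ _).trans ?_
      have hin2 : ∀ t ∈ Reg v, bm ι p hp {ω | far s t ∧ bad (fun v => ω ∈ B v) k s ∧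
          bad (fun v => ω ∈ B v) k t} ≤ ENNReal.ofReal (qq k * qq k) := by
        intro t _
        by_cases hf : far s t
        · have : {ω | far s t ∧ bad (fun v => ω ∈ B v) k s ∧ bad (fun v => ω ∈ B v) k t}
              = {ω | bad (fun v => ω ∈ B v) k s} ∩ {ω | bad (fun v => ω ∈ B v) k t} := by
            ext ω; simp only [Set.mem_setOf_eq, Set.mem_inter_iff, hf, true_and]
          rw [this, bm_inter p hp (J := (DD D k s : Set ι)) (J' := (DD D k t : Set ι))
            (Finset.disjoint_coe.mpr (DD_disj D hD k s t hf))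
            (bad_dep B D hB k s).measurable_fin (bad_dep B D hB k t).measurable_fin
            (bad_dep B D hB k s) (bad_dep B D hB k t),
            ENNReal.ofReal_mul hq0]
          exact mul_le_mul' (ih s) (ih t)
        · have : {ω | far s t ∧ bad (fun v => ω ∈ B v) k s ∧ bad (fun v => ω ∈ B v) k t} = ∅ := by
            ext ω; simp only [Set.mem_setOf_eq, hf, false_and, Set.mem_empty_iff_false]
          rw [this]; simp
      calc _ ≤ ∑ t ∈ Reg v, ENNReal.ofReal (qq k * qq k) := Finset.sum_le_sum hin2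
        _ = _ := by
            rw [Finset.sum_const, card_Reg, nsmul_eq_mul, ENNReal.ofReal_mul (p := 21025) (by norm_num)]
            norm_num
    calc _ ≤ ∑ s ∈ Reg v, ENNReal.ofReal (21025 * (qq k * qq k)) := Finset.sum_le_sum hin
      _ = ENNReal.ofReal (21025 * (21025 * (qq k * qq k))) := by
          rw [Finset.sum_const, card_Reg, nsmul_eq_mul, ENNReal.ofReal_mul (p := 21025) (by norm_num)]
          norm_num
      _ ≤ ENNReal.ofReal (qq (k + 1)) := by
          refine ENNReal.ofReal_le_ofReal ?_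
          unfold Pool.Agent.H592F.qq
          have h1 : (0 : ℝ) < (1 / 2) ^ (k + 1) := by positivity
          have h2 : ((1 : ℝ) / 2) ^ (k + 1) ≤ 1 / 2 := by
            calc ((1 : ℝ) / 2) ^ (k + 1) ≤ (1 / 2) ^ 1 :=
                  pow_le_pow_of_le_one (by norm_num) (by norm_num) (by omega)
              _ = 1 / 2 := by norm_num
          have h3 : ((1 : ℝ) / 2) ^ (k + 1 + 1) = (1 / 2) ^ (k + 1) * (1 / 2) := pow_succ _ _
          rw [h3]
          nlinarith

theorem fail_prob' {ι : Type} [DecidableEq ι] (p : NNReal) (hp : p ≤ 1)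
    (B : P2 → Set (ι → Bool)) (D : P2 → Finset ι)
    (hB : ∀ v, DepOn (D v : Set ι) (B v))
    (hD : ∀ s t, far s t → Disjoint (D s) (D t))
    (h0 : ∀ v, bm ι p hp (B v) ≤ ENNReal.ofReal (1 / 884101250)) :
    bm ι p hp {ω | ∃ k, ¬ safe (bad (fun v => ω ∈ B v) k) (0, 0)} ≤ ENNReal.ofReal (1 / 4) := by
  set W : Finset P2 := Finset.Icc (-3) 3 ×ˢ Finset.Icc (-3) 3 with hW
  have hcW : W.card = 49 := by rw [hW, Finset.card_product, Int.card_Icc]; rfl
  have hsub : {ω | ∃ k, ¬ safe (bad (fun v => ω ∈ B v) k) (0, 0)}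
      ⊆ ⋃ k : ℕ, ⋃ u ∈ W, {ω | bad (fun v => ω ∈ B v) k u} := by
    rintro ω ⟨k, hk⟩
    unfold Pool.Agent.H592F.safe at hk
    push Not at hk
    obtain ⟨u, hu, hb⟩ := hk
    rw [Set.mem_iUnion]
    refine ⟨k, ?_⟩
    rw [Set.mem_iUnion₂]
    refine ⟨u, ?_, hb⟩
    obtain ⟨h1, h2⟩ := hu
    simp only [sub_zero] at h1 h2
    rw [abs_le] at h1 h2
    rw [hW, Finset.mem_product, Finset.mem_Icc, Finset.mem_Icc]
    exact ⟨h1, h2⟩
  refine (measure_mono hsub).trans ((measure_iUnion_le _).trans ?_)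
  have h1 : ∀ k : ℕ, bm ι p hp (⋃ u ∈ W, {ω | bad (fun v => ω ∈ B v) k u})
      ≤ ENNReal.ofReal (49 * qq k) := by
    intro k
    refine (measure_biUnion_finset_le _ _).trans ?_
    calc _ ≤ ∑ u ∈ W, ENNReal.ofReal (qq k) :=
          Finset.sum_le_sum fun u _ => bad_prob' p hp B D hB hD h0 k u
      _ = _ := by
          rw [Finset.sum_const, hcW, nsmul_eq_mul, ENNReal.ofReal_mul (by norm_num)]
          norm_num
  refine (ENNReal.tsum_le_tsum h1).trans ?_
  have hs : HasSum (fun k : ℕ => 49 * qq k) (49 * (1 / 442050625)) := by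
    unfold Pool.Agent.H592F.qq
    have h2 := hasSum_geometric_of_lt_one (r := (1 / 2 : ℝ)) (by norm_num) (by norm_num)
    have h3 := h2.mul_left (49 * (1 / 442050625 * (1 / 2)))
    have e : (49 * (1 / 442050625 * (1 / 2)) * (1 - 1 / 2)⁻¹ : ℝ) = 49 * (1 / 442050625) := by
      norm_num
    have e2 : (fun k : ℕ => (49 : ℝ) * (1 / 442050625 * (1 / 2) ^ (k + 1)))
        = fun k => 49 * (1 / 442050625 * (1 / 2)) * (1 / 2) ^ k := by
      funext k
      rw [pow_succ]
      ring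
    rw [e2, ← e]
    exact h3
  rw [← ENNReal.ofReal_tsum_of_nonneg (fun k => by unfold Pool.Agent.H592F.qq; positivity)
    hs.summable, hs.tsum_eq]
  refine ENNReal.ofReal_le_ofReal ?_
  norm_num

theorem multi {ι : Type} [DecidableEq ι] (p : NNReal) (hp : p ≤ 1)
    (B : P2 → Set (ι → Bool)) (D : P2 → Finset ι)
    (hB : ∀ v, DepOn (D v : Set ι) (B v))
    (hD : ∀ s t, far s t → Disjoint (D s) (D t))
    (h0 : ∀ v, (bm ι p hp).real (B v) ≤ 1 / 884101250) :
    1 / 2 ≤ (bm ι p hp).real {ω | ∀ k, safe (bad (fun v => ω ∈ B v) k) (0, 0)} := by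
  have h0' : ∀ v, bm ι p hp (B v) ≤ ENNReal.ofReal (1 / 884101250) := by
    intro v
    rw [← ENNReal.ofReal_toReal (measure_ne_top (bm ι p hp) (B v))]
    exact ENNReal.ofReal_le_ofReal (h0 v)
  have hf := fail_prob' p hp B D hB hD h0'
  have hset : {ω : ι → Bool | ∀ k, safe (bad (fun v => ω ∈ B v) k) (0, 0)}
      = {ω | ∃ k, ¬ safe (bad (fun v => ω ∈ B v) k) (0, 0)}ᶜ := by
    ext ω
    simp only [Set.mem_setOf_eq, Set.mem_compl_iff, not_exists, not_not]
  have hms : MeasurableSet {ω : ι → Bool | ∃ k, ¬ safe (bad (fun v => ω ∈ B v) k) (0, 0)} := by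
    have : {ω : ι → Bool | ∃ k, ¬ safe (bad (fun v => ω ∈ B v) k) (0, 0)}
        = ⋃ k : ℕ, ⋃ u : P2, ⋃ _ : near u (0, 0), {ω | bad (fun v => ω ∈ B v) k u} := by
      ext ω
      simp only [Set.mem_iUnion, Set.mem_setOf_eq, Pool.Agent.H592F.safe]
      push Not
      constructor
      · rintro ⟨k, u, h1, h2⟩; exact ⟨k, u, h1, h2⟩
      · rintro ⟨k, u, h1, h2⟩; exact ⟨k, u, h1, h2⟩
    rw [this]
    exact MeasurableSet.iUnion fun k => MeasurableSet.iUnion fun u => MeasurableSet.iUnion fun _ =>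
      (bad_dep B D hB k u).measurable_fin
  have hreal : (bm ι p hp).real {ω : ι → Bool | ∃ k, ¬ safe (bad (fun v => ω ∈ B v) k) (0, 0)}
      ≤ 1 / 4 := by
    rw [Measure.real]
    exact ENNReal.toReal_le_of_le_ofReal (by norm_num) hf
  rw [hset, probReal_compl_eq_one_sub hms]
  linarith

/-! ### geometry -/

/-- the intersection of two boxes whose centres differ by at most `t` in one coordinate -/
theorem card_inter {d : ℕ} (w w' : Fin d → ℤ) (t : ℕ) (i0 : Fin d) (h0 : |w i0 - w' i0| ≤ t)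
    (h1 : ∀ i, i ≠ i0 → w i = w' i) : (2 * t + 1) ^ d ≤ 2 * (bx w t ∩ bx w' t).card := by
  classical
  have hd : 0 < d := i0.pos
  set a : ℤ := max (w i0 - t) (w' i0 - t) with ha
  set b : ℤ := min (w i0 + t) (w' i0 + t) with hb
  have hab : (t : ℤ) + 1 ≤ b + 1 - a := by
    rw [abs_le] at h0
    rw [ha, hb]
    rcases le_total (w i0) (w' i0) with h | h
    · rw [max_eq_right (by linarith), min_eq_left (by linarith)]; linarith
    · rw [max_eq_left (by linarith), min_eq_right (by linarith)]; linarith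
  have hsub : Finset.Icc (Function.update (fun i => w i - (t : ℤ)) i0 a)
      (Function.update (fun i => w i + (t : ℤ)) i0 b) ⊆ bx w t ∩ bx w' t := by
    intro x hx
    rw [Finset.mem_Icc, Pi.le_def, Pi.le_def] at hx
    rw [Finset.mem_inter, mem_bx, mem_bx]
    constructor
    · intro i
      rw [abs_le]
      by_cases hi : i = i0
      · subst hi
        have e1 := hx.1 i
        have e2 := hx.2 i
        rw [Function.update_self] at e1 e2
        have := le_max_left (w i - t) (w' i - (t : ℤ))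
        have := min_le_left (w i + t) (w' i + (t : ℤ))
        constructor <;> linarith
      · have e1 := hx.1 i
        have e2 := hx.2 i
        rw [Function.update_of_ne hi] at e1 e2
        constructor <;> linarith
    · intro i
      rw [abs_le]
      by_cases hi : i = i0
      · subst hi
        have e1 := hx.1 i
        have e2 := hx.2 i
        rw [Function.update_self] at e1 e2
        have := le_max_right (w i - t) (w' i - (t : ℤ))
        have := min_le_right (w i + t) (w' i + (t : ℤ))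
        constructor <;> linarith
      · have e1 := hx.1 i
        have e2 := hx.2 i
        rw [Function.update_of_ne hi] at e1 e2
        rw [← h1 i hi]
        constructor <;> linarith
  have hcard : (Finset.Icc (Function.update (fun i => w i - (t : ℤ)) i0 a)
      (Function.update (fun i => w i + (t : ℤ)) i0 b)).card =
      (b + 1 - a).toNat * (2 * t + 1) ^ (d - 1) := by
    rw [Pi.card_Icc, ← Finset.mul_prod_erase Finset.univ _ (Finset.mem_univ i0)]
    rw [Function.update_self, Function.update_self, Int.card_Icc]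
    congr 1
    have h2 : ∀ i ∈ Finset.univ.erase i0,
        (Finset.Icc (Function.update (fun i => w i - (t : ℤ)) i0 a i)
          (Function.update (fun i => w i + (t : ℤ)) i0 b i)).card = 2 * t + 1 := by
      intro i hi
      have hij := Finset.ne_of_mem_erase hi
      rw [Function.update_of_ne hij, Function.update_of_ne hij, Int.card_Icc]
      omega
    rw [Finset.prod_congr rfl h2, Finset.prod_const, Finset.card_erase_of_mem (Finset.mem_univ _),
      Finset.card_univ, Fintype.card_fin]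
  have h3 := Finset.card_le_card hsub
  rw [hcard] at h3
  have h4 : t + 1 ≤ (b + 1 - a).toNat := by omega
  have h5 : (2 * t + 1) ^ d = (2 * t + 1) * (2 * t + 1) ^ (d - 1) := by
    rw [← pow_succ']
    congr 1
    omega
  rw [h5]
  have h6 : (t + 1) * (2 * t + 1) ^ (d - 1) ≤ (b + 1 - a).toNat * (2 * t + 1) ^ (d - 1) :=
    Nat.mul_le_mul_right _ h4
  have h7 : (2 * t + 1) * (2 * t + 1) ^ (d - 1) ≤ 2 * ((t + 1) * (2 * t + 1) ^ (d - 1)) := by
    rw [← mul_assoc]
    exact Nat.mul_le_mul_right _ (by omega)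
  omega

variable {d : ℕ} {ι V : Type} (M : Geo d ι V)

/-- connected by open hyperedges -/
def J (ω : ι → Bool) (u v : V) : Prop := ∃ m, Con M.N (M.E 0 m) ω u v

theorem E_sub (w : Fin d → ℤ) (n : ℕ) : ∃ m, M.E w n ⊆ M.E 0 m := by
  obtain ⟨K, hK⟩ : ∃ K : ℕ, ∀ i, |w i| ≤ K := by
    refine ⟨∑ i, (w i).natAbs, fun i => ?_⟩
    have := Finset.single_le_sum (f := fun i => (w i).natAbs) (fun _ _ => Nat.zero_le _)
      (Finset.mem_univ i)
    have h2 : |w i| = ((w i).natAbs : ℤ) := Int.abs_eq_natAbs _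
    rw [h2]
    exact_mod_cast this
  refine ⟨K + n, M.E_mono _ _ _ _ (bx_subset fun i => ?_)⟩
  have := hK i
  simp only [Pi.zero_apply, sub_zero]
  push_cast
  linarith

theorem J.of {M : Geo d ι V} {ω : ι → Bool} {w : Fin d → ℤ} {n : ℕ} {u v : V}
    (h : Con M.N (M.E w n) ω u v) : J M ω u v := by
  obtain ⟨m, hm⟩ := E_sub M w n
  exact ⟨m, h.mono hm le_rfl⟩

theorem J.trans {M : Geo d ι V} {ω : ι → Bool} {u v w : V} (h : J M ω u v) (h' : J M ω v w) :
    J M ω u w := by
  obtain ⟨m, hm⟩ := h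
  obtain ⟨m', hm'⟩ := h'
  refine ⟨max m m', ?_⟩
  exact (hm.mono (M.E_mono _ _ _ _ (bx_mono 0 (le_max_left _ _))) le_rfl).trans
    (hm'.mono (M.E_mono _ _ _ _ (bx_mono 0 (le_max_right _ _))) le_rfl)

theorem J.symm {M : Geo d ι V} {ω : ι → Bool} {u v : V} (h : J M ω u v) : J M ω v u := by
  obtain ⟨m, hm⟩ := h
  exact ⟨m, hm.symm⟩

/-- dominating points of close boxes are connected -/
theorem key (w w' : Fin d → ℤ) (t : ℕ) (i0 : Fin d) (h0 : |w i0 - w' i0| ≤ t)
    (h1 : ∀ i, i ≠ i0 → w i = w' i) (ω : ι → Bool) (f f' : V) (hf : M.dom w (4 * t) t ω f)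
    (hf' : M.dom w' (4 * t) t ω f') (hM : ω ∈ M.Mt w (3 * t) t) : J M ω f f' := by
  classical
  obtain ⟨f1, f2⟩ := hf
  obtain ⟨g1, g2⟩ := hf'
  set L := (2 * t + 1) ^ d with hL
  set A := M.cells w t (cl M.N (M.E w (4 * t)) ω {f}) with hA
  set A' := M.cells w' t (cl M.N (M.E w' (4 * t)) ω {f'}) with hA'
  set Q := (bx w t).filter (fun z => M.bc w (3 * t) ω z) with hQ
  have hQ4 : 4 * Q.card < L := by
    have := hM
    unfold Geo.Mt at this
    simp only [Set.mem_setOf_eq] at this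
    convert this using 2
  have hAs : A ⊆ bx w t := by rw [hA]; unfold Geo.cells; exact Finset.filter_subset _ _
  have hAs' : A' ⊆ bx w' t := by rw [hA']; unfold Geo.cells; exact Finset.filter_subset _ _
  have hI := card_inter w w' t i0 h0 h1
  have c1 : (bx w t \ A).card + A.card = L := by
    rw [Finset.card_sdiff_add_card_eq_card hAs, card_bx]
  have c2 : (bx w' t \ A').card + A'.card = L := by
    rw [Finset.card_sdiff_add_card_eq_card hAs', card_bx]
  obtain ⟨z, hz⟩ : ((bx w t ∩ bx w' t) \ ((bx w t \ A) ∪ (bx w' t \ A') ∪ Q)).Nonempty := by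
    rw [← Finset.card_pos]
    have e1 := Finset.le_card_sdiff ((bx w t \ A) ∪ (bx w' t \ A') ∪ Q) (bx w t ∩ bx w' t)
    have e2 := Finset.card_union_le ((bx w t \ A) ∪ (bx w' t \ A')) Q
    have e3 := Finset.card_union_le (bx w t \ A) (bx w' t \ A')
    omega
  simp only [Finset.mem_sdiff, Finset.mem_union, Finset.mem_inter, not_or, not_and, not_not] at hz
  obtain ⟨⟨z1, z2⟩, ⟨z3, z4⟩, z5⟩ := hz
  have z3 := z3 z1
  have z4 := z4 z2
  have z5' : ¬ M.bc w (3 * t) ω z := by
    intro h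
    exact z5 (by rw [hQ, Finset.mem_filter]; exact ⟨z1, h⟩)
  rw [hA] at z3
  rw [hA'] at z4
  unfold Geo.cells at z3 z4
  rw [Finset.mem_filter] at z3 z4
  obtain ⟨-, x, hx, x0, hx0, hxc⟩ := z3
  obtain ⟨-, y, hy, y0, hy0, hyc⟩ := z4
  rw [Set.mem_singleton_iff] at hx0 hy0
  subst hx0
  subst hy0
  have hzb : z ∈ bx w (3 * t) := bx_mono w (by omega) z1
  have hx3 : x ∈ M.cB w (3 * t) ω := by
    obtain ⟨f'', hf1, hf2⟩ := M.exit w (3 * t) w (4 * t) ω z x _ (bx_mono w (by omega)) hzb hx f1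
      hxc.symm
    exact ⟨f'', hf1, hf2.symm⟩
  have hy3 : y ∈ M.cB w (3 * t) ω := by
    obtain ⟨f'', hf1, hf2⟩ := M.exit w (3 * t) w' (4 * t) ω z y _ (bx_subset fun i => by
      have h2 : |w i - w' i| ≤ t := by
        by_cases hi : i = i0
        · rw [hi]; exact h0
        · rw [h1 i hi, sub_self, abs_zero]; positivity
      push_cast
      linarith) hzb hy g1 hyc.symm
    exact ⟨f'', hf1, hf2.symm⟩
  have hcon : Con M.N (M.E w (3 * t)) ω x y := by
    by_contra hne
    exact z5' ⟨x, hx, y, hy, hx3, hy3, hne⟩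
  exact (J.of hxc).trans ((J.of hcon).trans (J.of hyc.symm))

theorem ctr_zero (t : ℕ) : (Geo.ctr t (0, 0) false 0 : Fin d → ℤ) = 0 := by
  funext i
  unfold Geo.ctr
  simp

theorem ctr_b0 (t : ℕ) (u : ℤ × ℤ) (b : Bool) :
    (Geo.ctr t u b 0 : Fin d → ℤ) = Geo.ctr t u false 0 := by
  funext i
  unfold Geo.ctr
  cases b <;> simp

theorem ctr_right (t : ℕ) (u : ℤ × ℤ) :
    (Geo.ctr t u false 8 : Fin d → ℤ) = Geo.ctr t (u.1 + 1, u.2) false 0 := by
  funext i
  unfold Geo.ctr
  simp only [Bool.false_eq_true, if_false]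
  split_ifs
  · push_cast; ring
  · push_cast; ring
  · rfl

theorem ctr_up (t : ℕ) (u : ℤ × ℤ) :
    (Geo.ctr t u true 8 : Fin d → ℤ) = Geo.ctr t (u.1, u.2 + 1) false 0 := by
  funext i
  unfold Geo.ctr
  simp only [Bool.false_eq_true, if_false, if_true]
  split_ifs
  · push_cast; ring
  · push_cast; ring
  · rfl

/-- consecutive centres -/
theorem ctr_step (hd : 2 ≤ d) (t : ℕ) (u : ℤ × ℤ) (b : Bool) (j : ℕ) : ∃ i0 : Fin d,
    |(Geo.ctr t u b j : Fin d → ℤ) i0 - (Geo.ctr t u b (j + 1) : Fin d → ℤ) i0| ≤ t ∧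
    ∀ i, i ≠ i0 → (Geo.ctr t u b j : Fin d → ℤ) i = (Geo.ctr t u b (j + 1) : Fin d → ℤ) i := by
  cases b
  · refine ⟨⟨0, by omega⟩, ?_, ?_⟩
    · unfold Geo.ctr
      simp only [if_true, Bool.false_eq_true, if_false]
      have : 8 * (t : ℤ) * u.1 + ((t * j : ℕ) : ℤ) - (8 * t * u.1 + ((t * (j + 1) : ℕ) : ℤ)) = -t := by
        push_cast; ring
      rw [this, abs_neg, abs_of_nonneg (by positivity)]
    · intro i hi
      have : i.val ≠ 0 := fun h => hi (Fin.ext h)
      unfold Geo.ctr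
      simp only [this, if_false, Bool.false_eq_true]
  · refine ⟨⟨1, by omega⟩, ?_, ?_⟩
    · unfold Geo.ctr
      simp only [one_ne_zero, if_true, if_false]
      have : 8 * (t : ℤ) * u.2 + ((t * j : ℕ) : ℤ) - (8 * t * u.2 + ((t * (j + 1) : ℕ) : ℤ)) = -t := by
        push_cast; ring
      rw [this, abs_neg, abs_of_nonneg (by positivity)]
    · intro i hi
      have : i.val ≠ 1 := fun h => hi (Fin.ext h)
      unfold Geo.ctr
      simp only [this, if_false, if_true]

/-- all the dominating points on the way to a neighbour are connected -/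
theorem chain (hd : 2 ≤ d) (t : ℕ) (u : ℤ × ℤ) (ω : ι → Bool) (hg : ω ∈ M.Good t u) (b : Bool)
    (f : V) (hf : M.dom (Geo.ctr t u false 0) (4 * t) t ω f) : ∀ j ≤ 8, ∀ g,
      M.dom (Geo.ctr t u b j) (4 * t) t ω g → J M ω f g := by
  intro j
  induction j with
  | zero =>
    intro _ g hgd
    rw [ctr_b0] at hgd
    refine key M (Geo.ctr t u false 0) (Geo.ctr t u false 0) t ⟨0, by omega⟩ (by simp)
      (fun _ _ => rfl) ω f g hf hgd (hg false 0 (by norm_num)).2
  | succ j ih =>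
    intro hj g hgd
    obtain ⟨f', hf'⟩ := (hg b j (by omega)).1
    obtain ⟨i0, e1, e2⟩ := ctr_step hd t u b j
    exact (ih (by omega) f' hf').trans
      (key M _ _ t i0 e1 e2 ω f' g hf' hgd (hg b j (by omega)).2)

theorem wet_conn (hd : 2 ≤ d) (t : ℕ) (ω : ι → Bool) (x : P2)
    (hx : Wet (fun v => ω ∉ M.Good t v) x) :
    (0 ≤ x.1 ∧ 0 ≤ x.2) ∧ (x = (0, 0) ∨ (ω ∈ M.Good t (0, 0) ∧
      ∀ f g, M.dom (Geo.ctr t (0, 0) false 0) (4 * t) t ω f →
        M.dom (Geo.ctr t x false 0) (4 * t) t ω g → J M ω f g)) := by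
  induction hx with
  | zero => exact ⟨⟨le_refl _, le_refl _⟩, Or.inl rfl⟩
  | @right v hv hb ih =>
    rw [not_not] at hb
    refine ⟨⟨by have := ih.1.1; simp only; omega, ih.1.2⟩, Or.inr ?_⟩
    rcases ih.2 with h | ⟨h0, h⟩
    · subst h
      refine ⟨hb, fun f g hf hg => ?_⟩
      rw [← ctr_right] at hg
      exact chain M hd t (0, 0) ω hb false f hf 8 le_rfl g hg
    · refine ⟨h0, fun f g hf hg => ?_⟩
      obtain ⟨f', hf'⟩ := (hb false 0 (by norm_num)).1
      rw [← ctr_right] at hg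
      exact (h f f' hf hf').trans (chain M hd t v ω hb false f' hf' 8 le_rfl g hg)
  | @up v hv hb ih =>
    rw [not_not] at hb
    refine ⟨⟨ih.1.1, by have := ih.1.2; simp only; omega⟩, Or.inr ?_⟩
    rcases ih.2 with h | ⟨h0, h⟩
    · subst h
      refine ⟨hb, fun f g hf hg => ?_⟩
      rw [← ctr_up] at hg
      exact chain M hd t (0, 0) ω hb true f hf 8 le_rfl g hg
    · refine ⟨h0, fun f g hf hg => ?_⟩
      obtain ⟨f', hf'⟩ := (hb false 0 (by norm_num)).1
      rw [← ctr_up] at hg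
      exact (h f f' hf hf').trans (chain M hd t v ω hb true f' hf' 8 le_rfl g hg)

/-- far good sites -/
theorem far_good (hd : 2 ≤ d) (t : ℕ) (ω : ι → Bool) (N : ℕ)
    (hx : ∃ x, Wet (fun v => ω ∉ M.Good t v) x ∧ ((N + 1 : ℕ) : ℤ) ≤ x.1 + x.2) :
    ∃ y : P2, (0 ≤ y.1 ∧ 0 ≤ y.2) ∧ (N : ℤ) ≤ y.1 + y.2 ∧ ω ∈ M.Good t y ∧
      ω ∈ M.Good t (0, 0) ∧
      ∀ f g, M.dom (Geo.ctr t (0, 0) false 0) (4 * t) t ω f →
        M.dom (Geo.ctr t y false 0) (4 * t) t ω g → J M ω f g := by
  obtain ⟨x, hw, hN⟩ := hx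
  have main : ∀ y : P2, Wet (fun v => ω ∉ M.Good t v) y → ω ∈ M.Good t y →
      (N : ℤ) ≤ y.1 + y.2 → ∃ y : P2, (0 ≤ y.1 ∧ 0 ≤ y.2) ∧ (N : ℤ) ≤ y.1 + y.2 ∧
      ω ∈ M.Good t y ∧ ω ∈ M.Good t (0, 0) ∧
      ∀ f g, M.dom (Geo.ctr t (0, 0) false 0) (4 * t) t ω f →
        M.dom (Geo.ctr t y false 0) (4 * t) t ω g → J M ω f g := by
    intro y hy hg hNy
    obtain ⟨h1, h2⟩ := wet_conn M hd t ω y hy
    rcases h2 with h2 | ⟨h2, h3⟩
    · subst h2
      refine ⟨(0, 0), h1, hNy, hg, hg, fun f g hf hg' => ?_⟩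
      exact chain M hd t (0, 0) ω hg false f hf 0 (by norm_num) g hg'
    · exact ⟨y, h1, hNy, hg, h2, h3⟩
  cases hw with
  | zero => push_cast at hN; omega
  | @right v hv hb =>
    rw [not_not] at hb
    exact main v hv hb (by push_cast at hN; omega)
  | @up v hv hb =>
    rw [not_not] at hb
    exact main v hv hb (by push_cast at hN; omega)

theorem dom_congr {w : Fin d → ℤ} {n t : ℕ} {ω ω' : ι → Bool} (h : ∀ i ∈ M.E w n, ω i = ω' i) :
    M.dom w n t ω = M.dom w n t ω' := by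
  funext f
  unfold Geo.dom
  rw [cl_congr h]

theorem bc_congr {w : Fin d → ℤ} {n : ℕ} {ω ω' : ι → Bool} (h : ∀ i ∈ M.E w n, ω i = ω' i) :
    M.bc w n ω = M.bc w n ω' := by
  funext z
  unfold Geo.bc Geo.BP Geo.cB
  simp only [Set.mem_setOf_eq]
  rw [cl_congr h, con_congr h]

theorem ctr_near (t : ℕ) (u : ℤ × ℤ) (b : Bool) (j : ℕ) (hj : j ≤ 8) (i : Fin d) :
    |(Geo.ctr t u b j : Fin d → ℤ) i - (Geo.ctr t u false 0 : Fin d → ℤ) i| ≤ 8 * t := by
  have ht : (0 : ℤ) ≤ t := by positivity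
  have hj' : (j : ℤ) ≤ 8 := by exact_mod_cast hj
  have hj0 : (0 : ℤ) ≤ j := by positivity
  have h1 : (t : ℤ) * j ≤ 8 * t := by nlinarith
  have h2 : (0 : ℤ) ≤ (t : ℤ) * j := by positivity
  unfold Geo.ctr
  rw [abs_le]
  cases b <;> simp only [Bool.false_eq_true, if_false, if_true] <;> split_ifs <;> push_cast <;>
    constructor <;> linarith

theorem good_dep (t : ℕ) (u : ℤ × ℤ) :
    DepOn (M.E (Geo.ctr t u false 0) (12 * t) : Set ι) (M.Good t u) := by
  intro ω ω' h
  have hsub : ∀ b : Bool, ∀ j ≤ 8, ∀ n ≤ 4 * t,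
      ∀ i ∈ M.E (Geo.ctr t u b j) n, ω i = ω' i := by
    intro b j hj n hn i hi
    refine h i (M.E_mono _ _ _ _ (bx_subset fun k => ?_) hi)
    have := ctr_near (d := d) t u b j hj k
    push_cast
    have : (n : ℤ) ≤ 4 * t := by exact_mod_cast hn
    linarith
  unfold Geo.Good
  simp only [Set.mem_setOf_eq]
  refine forall_congr' fun b => forall_congr' fun j => forall_congr' fun hj => ?_
  refine and_congr ?_ ?_
  · unfold Geo.Dom
    simp only [Set.mem_setOf_eq]
    rw [dom_congr M (hsub b j hj (4 * t) le_rfl)]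
  · unfold Geo.Mt
    simp only [Set.mem_setOf_eq]
    rw [bc_congr M (hsub b j hj (3 * t) (by omega))]

theorem far_disj (hd : 2 ≤ d) (t : ℕ) (ht : 1 ≤ t) (u u' : P2) (h : far u u') :
    Disjoint (M.E (Geo.ctr t u false 0) (12 * t)) (M.E (Geo.ctr t u' false 0) (12 * t)) := by
  apply M.ind
  have ht' : (1 : ℤ) ≤ t := by exact_mod_cast ht
  rcases h with h | h
  · refine ⟨⟨0, by omega⟩, ?_⟩
    unfold Geo.ctr
    simp only [if_true, Bool.false_eq_true, if_false, Nat.cast_zero, mul_zero, add_zero]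
    rw [← mul_sub, abs_mul, abs_of_nonneg (by positivity : (0 : ℤ) ≤ 8 * t)]
    push_cast
    nlinarith
  · refine ⟨⟨1, by omega⟩, ?_⟩
    unfold Geo.ctr
    simp only [if_true, one_ne_zero, Bool.false_eq_true, if_false, Nat.cast_zero, mul_zero, add_zero]
    rw [← mul_sub, abs_mul, abs_of_nonneg (by positivity : (0 : ℤ) ≤ 8 * t)]
    push_cast
    nlinarith

/-- good coarse sites percolate -/
theorem coarse : S_coarse := by
  classical
  intro d ι V M t p hp hd ht h
  have hB : ∀ v : P2, DepOn (M.E (Geo.ctr t v false 0) (12 * t) : Set ι) (M.Good t v)ᶜ :=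
    fun v => (good_dep M t v).compl
  have hm := multi p hp (fun v => (M.Good t v)ᶜ) (fun v => M.E (Geo.ctr t v false 0) (12 * t)) hB
    (fun s t' hst => far_disj M hd t ht s t' hst) (fun v => (h v).trans (by norm_num))
  refine hm.trans (measureReal_mono ?_ (measure_ne_top _ _))
  intro ω hω R
  simp only [Set.mem_setOf_eq] at hω
  have hdet := perc_det (fun v => ω ∈ (M.Good t v)ᶜ) hω
  obtain ⟨y, hy0, hyN, hyg, hg0, hJ⟩ := far_good M hd t ω (2 * R + 2) (hdet (2 * R + 2 + 1))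
  obtain ⟨f, hf⟩ := (hg0 false 0 (by norm_num)).1
  obtain ⟨g, hg⟩ := (hyg false 0 (by norm_num)).1
  have hfg := hJ f g hf hg
  have hfF := hf.1
  rw [ctr_zero] at hfF
  refine ⟨f, hfF, ?_⟩
  -- a cell touched by the cluster of `g`
  have hpos : 0 < (M.cells (Geo.ctr t y false 0) t
      (cl M.N (M.E (Geo.ctr t y false 0) (4 * t)) ω {g})).card := by
    have h1 := hg.2
    have h2 : 0 < (2 * t + 1) ^ d := by positivity
    omega
  obtain ⟨z, hz⟩ := Finset.card_pos.1 hpos
  unfold Geo.cells at hz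
  rw [Finset.mem_filter] at hz
  obtain ⟨hzb, v, hv, a, ha, hav⟩ := hz
  rw [Set.mem_singleton_iff] at ha
  subst ha
  obtain ⟨m, hmc⟩ := hfg.trans (J.of hav)
  refine ⟨z, ?_, v, hv, m, hmc⟩
  intro hz0
  rw [mem_bx] at hzb hz0
  have ht' : (1 : ℤ) ≤ t := by exact_mod_cast ht
  push_cast at hyN
  have hor : (R : ℤ) + 1 ≤ y.1 ∨ (R : ℤ) + 1 ≤ y.2 := by
    by_contra hcon
    push Not at hcon
    omega
  rcases hor with hor | hor
  · have e1 := hzb ⟨0, by omega⟩
    have e2 := hz0 ⟨0, by omega⟩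
    unfold Geo.ctr at e1
    simp only [if_true, Bool.false_eq_true, if_false, Nat.cast_zero, mul_zero, add_zero,
      Pi.zero_apply, sub_zero] at e1 e2
    rw [abs_le] at e1 e2
    nlinarith
  · have e1 := hzb ⟨1, by omega⟩
    have e2 := hz0 ⟨1, by omega⟩
    unfold Geo.ctr at e1
    simp only [if_true, one_ne_zero, Bool.false_eq_true, if_false, Nat.cast_zero, mul_zero, add_zero,
      Pi.zero_apply, sub_zero] at e1 e2
    rw [abs_le] at e1 e2
    nlinarith

end

end Pool.Agent.W90.PD
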